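import Pool.Agent.Y517.NT.Sys

/-!
# The abstract main theorem

Part NT-ABS of the project NT (very famous problem MP_9986fc_gt).
-/

set_option autoImplicit false

open Set Filter Topology MeasureTheory
open scoped ContDiff

noncomputable section

namespace Pool.Agent.Y686.NT

open Pool.Agent.Y517.NT

variable {X K : Type} [TopologicalSpace X] [TopologicalSpace K] (s : Sys X K)

lemma br_cont {f g : X → ℝ} (hf : f ∈ s.S) (hg : g ∈ s.S) : Continuous (s.br f g) :=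
  ((s.D_cont f hf).mul (s.D'_cont g hg)).sub ((s.D'_cont f hf).mul (s.D_cont g hg))

lemma Ex.cont {η : K → ℝ} (h : s.Ex η) : Continuous η := by
  obtain ⟨n, f, g, hf, hg, he⟩ := h
  have h1 : η = fun z => ∑ i, s.br (f i) (g i) z := funext he
  rw [h1]
  exact continuous_finsetSum _ fun i _ => br_cont s (hf i) (hg i)

lemma smul_mem (c : ℝ) {f : X → ℝ} (hf : f ∈ s.S) : (fun x => c * f x) ∈ s.S :=
  s.comp (fun q => c * q.1) (contDiff_const.mul contDiff_fst) f hf f hf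

lemma fderiv_smul (c : ℝ) (q u : ℝ × ℝ) :
    fderiv ℝ (fun q : ℝ × ℝ => c * q.1) q u = c * u.1 := by
  have h : HasFDerivAt (fun q : ℝ × ℝ => c * q.1) (c • ContinuousLinearMap.fst ℝ ℝ ℝ) q :=
    (hasFDerivAt_fst (𝕜 := ℝ) (p := q)).const_mul c
  rw [h.fderiv]
  rfl

lemma D_smul (c : ℝ) {f : X → ℝ} (hf : f ∈ s.S) (z : K) :
    s.D (fun x => c * f x) z = c * s.D f z := by
  have h := s.D_comp (fun q => c * q.1) (contDiff_const.mul contDiff_fst) f hf f hf z
  rw [fderiv_smul] at h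
  exact h

lemma D'_smul (c : ℝ) {f : X → ℝ} (hf : f ∈ s.S) (z : K) :
    s.D' (fun x => c * f x) z = c * s.D' f z := by
  have h := s.D'_comp (fun q => c * q.1) (contDiff_const.mul contDiff_fst) f hf f hf z
  rw [fderiv_smul] at h
  exact h

lemma mul_mem {F f : X → ℝ} (hF : F ∈ s.S) (hf : f ∈ s.S) : (fun x => F x * f x) ∈ s.S :=
  s.comp (fun q => q.1 * q.2) (contDiff_fst.mul contDiff_snd) F hF f hf

lemma fderiv_mul' (q u : ℝ × ℝ) :
    fderiv ℝ (fun q : ℝ × ℝ => q.1 * q.2) q u = q.1 * u.2 + q.2 * u.1 := by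
  have h : HasFDerivAt (fun q : ℝ × ℝ => q.1 * q.2)
      (q.1 • ContinuousLinearMap.snd ℝ ℝ ℝ + q.2 • ContinuousLinearMap.fst ℝ ℝ ℝ) q :=
    (hasFDerivAt_fst (𝕜 := ℝ) (p := q)).mul (hasFDerivAt_snd (𝕜 := ℝ) (p := q))
  rw [h.fderiv]
  rfl

lemma D_mul {F f : X → ℝ} (hF : s.NC F) (hf : f ∈ s.S) (z : K) :
    s.D (fun x => F x * f x) z = F (s.p z) * s.D f z := by
  have h := s.D_comp (fun q => q.1 * q.2) (contDiff_fst.mul contDiff_snd) F hF.1 f hf z
  rw [fderiv_mul', (hF.2 z).1] at h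
  simpa using h

lemma D'_mul {F f : X → ℝ} (hF : s.NC F) (hf : f ∈ s.S) (z : K) :
    s.D' (fun x => F x * f x) z = F (s.p z) * s.D' f z := by
  have h := s.D'_comp (fun q => q.1 * q.2) (contDiff_fst.mul contDiff_snd) F hF.1 f hf z
  rw [fderiv_mul', (hF.2 z).2] at h
  simpa using h

/-- the space of the exact functions -/
def EE : Submodule ℝ C(K, ℝ) where
  carrier := {η | s.Ex (η : K → ℝ)}
  zero_mem' := ⟨0, fun i => i.elim0, fun i => i.elim0, fun i => i.elim0, fun i => i.elim0,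
    fun z => by simp⟩
  add_mem' := by
    rintro η η' ⟨n, f, g, hf, hg, he⟩ ⟨m, f', g', hf', hg', he'⟩
    refine ⟨n + m, Fin.append f f', Fin.append g g', ?_, ?_, ?_⟩
    · intro i
      refine Fin.addCases (fun i => ?_) (fun i => ?_) i
      · rw [Fin.append_left]; exact hf i
      · rw [Fin.append_right]; exact hf' i
    · intro i
      refine Fin.addCases (fun i => ?_) (fun i => ?_) i
      · rw [Fin.append_left]; exact hg i
      · rw [Fin.append_right]; exact hg' i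
    · intro z
      rw [Fin.sum_univ_add]
      simp only [Fin.append_left, Fin.append_right]
      show η z + η' z = _
      rw [he, he']
  smul_mem' := by
    rintro c η ⟨n, f, g, hf, hg, he⟩
    refine ⟨n, fun i x => c * f i x, g, fun i => smul_mem s c (hf i), hg, fun z => ?_⟩
    show c * η z = _
    rw [he, Finset.mul_sum]
    refine Finset.sum_congr rfl fun i _ => ?_
    unfold Sys.br
    rw [D_smul s c (hf i), D'_smul s c (hf i)]
    ring

lemma mem_EE {η : C(K, ℝ)} : η ∈ EE s ↔ s.Ex (η : K → ℝ) := Iff.rfl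

/-- multipliers -/
lemma mult {F : X → ℝ} (hF : s.NC F) (Fp : C(K, ℝ)) (hFp : ∀ z, Fp z = F (s.p z)) {η : C(K, ℝ)}
    (hη : η ∈ EE s) : Fp * η ∈ EE s := by
  obtain ⟨n, f, g, hf, hg, he⟩ := hη
  refine ⟨n, fun i x => F x * f i x, g, fun i => mul_mem s hF.1 (hf i), hg, fun z => ?_⟩
  show Fp z * η z = _
  rw [hFp, he, Finset.mul_sum]
  refine Finset.sum_congr rfl fun i _ => ?_
  unfold Sys.br
  rw [D_mul s hF (hf i), D'_mul s hF (hf i)]
  ring

theorem t_ABS : S_HB → S_ZONE → S_ZTWO → S_ABS := by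
  intro hHB hZ1 hZ2 X K _ _ _ _ _ _ _ _ s τ hyp
  let _ : MeasurableSpace K := borel K
  have _ : BorelSpace K := ⟨rfl⟩
  by_contra hcon
  push Not at hcon
  obtain ⟨μ, hμ, hμE, hμτ, hμF⟩ := hHB K (EE s) τ (fun η hη => hcon η hη)
  have hint : ∀ f : K → ℝ, Continuous f → Integrable f μ := fun f hf =>
    hf.integrable_of_hasCompactSupport (HasCompactSupport.of_compactSpace f)
  have hCl : s.Cl μ := by
    intro f hf g hg
    have h1 : (⟨s.br f g, br_cont s hf hg⟩ : C(K, ℝ)) ∈ EE s := by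
      refine ⟨1, fun _ => f, fun _ => g, fun _ => hf, fun _ => hg, fun z => ?_⟩
      simp
    exact hμE _ h1
  -- the support
  have hsupp : μ.support ∈ ae μ := Measure.support_mem_ae
  have hconst : ∀ F, s.NC F → ∃ c : ℝ, ∀ z ∈ μ.support, F (s.p z) = c := by
    intro F hF
    let Fp : C(K, ℝ) := ⟨fun z => F (s.p z), (s.S_cont F hF.1).comp s.p_cont⟩
    obtain ⟨c, hc⟩ := hμF Fp (fun η hη => mult s hF Fp (fun z => rfl) hη)
    refine ⟨c, fun z hz => ?_⟩
    by_contra hne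
    have hopen : IsOpen {z : K | Fp z ≠ c} := isOpen_ne_fun Fp.continuous continuous_const
    have h1 := (Measure.mem_support_iff_forall z).1 hz _ (hopen.mem_nhds hne)
    have h2 : μ {z : K | Fp z ≠ c} = 0 := by
      rw [ae_iff] at hc
      exact hc
    exact h1.ne' h2
  obtain ⟨z₀, hz₀⟩ : ∃ z₀, z₀ ∈ μ.support := by
    have h1 : ∀ᵐ z ∂μ, z ∈ μ.support := hsupp
    exact h1.exists
  obtain ⟨η, C, g, A, hη, hCc, hCn, hg, hA, hA0, hall⟩ := hyp z₀
  have hηc : Continuous η := Ex.cont s hη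
  have N1 : μ (⋃ n, s.p ⁻¹' (C n)) = 0 :=
    measure_iUnion_null fun n => hZ2 X K s μ hCl (C n) (hCc n) (hCn n)
  have N2 : μ (⋃ n, {z | g n (s.p z) ∈ A ∧ (s.D (g n) z ≠ 0 ∨ s.D' (g n) z ≠ 0)}) = 0 :=
    measure_iUnion_null fun n => hZ1 X K s μ hCl A hA hA0 (g n) (hg n)
  have hpos : ∀ᵐ z ∂μ, 0 < τ z + η z := by
    have h1 : ∀ᵐ z ∂μ, z ∉ (⋃ n, s.p ⁻¹' (C n)) := measure_eq_zero_iff_ae_notMem.1 N1
    have h2 : ∀ᵐ z ∂μ, z ∉ (⋃ n, {z | g n (s.p z) ∈ A ∧ (s.D (g n) z ≠ 0 ∨ s.D' (g n) z ≠ 0)}) :=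
      measure_eq_zero_iff_ae_notMem.1 N2
    have h3 : ∀ᵐ z ∂μ, z ∈ μ.support := hsupp
    filter_upwards [h1, h2, h3] with z hz1 hz2 hz3
    have h4 : ∀ F, s.NC F → F (s.p z) = F (s.p z₀) := by
      intro F hF
      obtain ⟨c, hc⟩ := hconst F hF
      rw [hc z hz3, hc z₀ hz₀]
    rcases hall z h4 with ⟨n, hn⟩ | ⟨n, hn⟩ | h5
    · exact (hz1 (mem_iUnion.2 ⟨n, hn⟩)).elim
    · exact (hz2 (mem_iUnion.2 ⟨n, hn⟩)).elim
    · exact h5
  have hτc : Continuous τ := τ.continuous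
  have hi : Integrable (fun z => τ z + η z) μ := hint _ (hτc.add hηc)
  have h1 : 0 < ∫ z, (τ z + η z) ∂μ := by
    rw [integral_pos_iff_support_of_nonneg_ae (hpos.mono fun z hz => hz.le) hi]
    have h2 : ∀ᵐ z ∂μ, z ∈ Function.support (fun z => τ z + η z) :=
      hpos.mono fun z hz => hz.ne'
    have h3 : μ (Function.support (fun z => τ z + η z)) = 1 := by
      rw [← prob_compl_eq_zero_iff₀]
      · exact mem_ae_iff.1 h2
      · exact (measurableSet_support (hτc.add hηc).measurable).nullMeasurableSet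
    rw [h3]
    exact one_pos
  have h2 : ∫ z, (τ z + η z) ∂μ = (∫ z, τ z ∂μ) + ∫ z, η z ∂μ :=
    integral_add (hint _ hτc) (hint _ hηc)
  have h3 : ∫ z, η z ∂μ = 0 := hμE ⟨η, hηc⟩ hη
  rw [h2, h3, add_zero] at h1
  exact absurd h1 (not_lt.2 hμτ)

end Pool.Agent.Y686.NT
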